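import Pool.Agent.V11105.CospD

open Matrix

namespace Pool.Agent.Results.MP_e39433_co.LevelBound

open Pool.Agent.V11105.Cosp

/-- `𝒬(G)`: the rational orthogonal matrices `Q` with `Q e = e` such that `Qᵀ A Q` is a
`(0,1)`-matrix, where `A` is the adjacency matrix of `G`. -/
def QQ {n : ℕ} (G : SimpleGraph (Fin n)) [DecidableRel G.Adj] : Set (Matrix (Fin n) (Fin n) ℚ) :=
  {Q | Qᵀ * Q = 1 ∧ (Q *ᵥ fun _ => 1) = (fun _ => 1) ∧
    ∀ i j, (Qᵀ * G.adjMatrix ℚ * Q) i j = 0 ∨ (Qᵀ * G.adjMatrix ℚ * Q) i j = 1}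

/-- `k Q` is an integer matrix. -/
def Clears {n : ℕ} (Q : Matrix (Fin n) (Fin n) ℚ) (k : ℕ) : Prop :=
  ∀ i j, ∃ z : ℤ, (k : ℚ) * Q i j = z

/-- the level of `Q`: the least positive integer `k` with `k Q` integral. -/
noncomputable def level {n : ℕ} (Q : Matrix (Fin n) (Fin n) ℚ) : ℕ :=
  sInf {k : ℕ | 0 < k ∧ Clears Q k}

/-- `L(G)`: the least positive common multiple of the levels of the elements of `𝒬(G)`. -/
noncomputable def bigL {n : ℕ} (G : SimpleGraph (Fin n)) [DecidableRel G.Adj] : ℕ :=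
  sInf {m : ℕ | 0 < m ∧ ∀ Q ∈ QQ G, level Q ∣ m}

lemma clears_gcd {n : ℕ} {Q : Matrix (Fin n) (Fin n) ℚ} {k l : ℕ} (hk : Clears Q k)
    (hl : Clears Q l) : Clears Q (Nat.gcd k l) := by
  intro i j
  obtain ⟨a, ha⟩ := hk i j
  obtain ⟨b, hb⟩ := hl i j
  refine ⟨a * Nat.gcdA k l + b * Nat.gcdB k l, ?_⟩
  have h := Nat.gcd_eq_gcd_ab k l
  have h2 : ((Nat.gcd k l : ℕ) : ℚ) = k * Nat.gcdA k l + l * Nat.gcdB k l := by exact_mod_cast h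
  rw [h2]
  push_cast
  rw [← ha, ← hb]
  ring

lemma level_dvd {n : ℕ} {Q : Matrix (Fin n) (Fin n) ℚ} {k : ℕ} (hk : Clears Q k) (hk0 : 0 < k) :
    level Q ∣ k := by
  have hmem : level Q ∈ {k : ℕ | 0 < k ∧ Clears Q k} := Nat.sInf_mem ⟨k, hk0, hk⟩
  have h1 : Nat.gcd (level Q) k ∈ {k : ℕ | 0 < k ∧ Clears Q k} :=
    ⟨Nat.gcd_pos_of_pos_left _ hmem.1, clears_gcd hmem.2 hk⟩
  have h2 : level Q ≤ Nat.gcd (level Q) k := Nat.sInf_le h1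
  have h3 : Nat.gcd (level Q) k = level Q :=
    le_antisymm (Nat.gcd_le_left _ hmem.1) h2
  exact Nat.gcd_eq_left_iff_dvd.mp h3

lemma sq_dvd_root {b a k : ℕ} (hb : 0 < b) (ha : Squarefree a) (hk : k ^ 2 ∣ b ^ 2 * a) :
    k ∣ b := by
  have ha0 : a ≠ 0 := ha.ne_zero
  have hD : b ^ 2 * a ≠ 0 := by positivity
  have hk0 : k ≠ 0 := by
    rintro rfl
    rw [zero_pow two_ne_zero, zero_dvd_iff] at hk
    exact hD hk
  rw [← Nat.factorization_le_iff_dvd hk0 hb.ne']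
  intro p
  have h1 := (Nat.factorization_le_iff_dvd (by positivity) hD).mpr hk p
  rw [Nat.factorization_mul (by positivity) ha0, Nat.factorization_pow,
    Nat.factorization_pow] at h1
  simp only [Finsupp.smul_apply, Finsupp.add_apply, smul_eq_mul] at h1
  have h2 := ha.natFactorization_le_one p
  omega

lemma cq_adj {n : ℕ} (G : SimpleGraph (Fin n)) [DecidableRel G.Adj] :
    cq (G.adjMatrix ℤ) = G.adjMatrix ℚ := by
  ext i j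
  simp only [cq, Matrix.map_apply, SimpleGraph.adjMatrix_apply]
  split_ifs <;> simp

lemma main {m : ℕ} (G : SimpleGraph (Fin (m + 2))) [DecidableRel G.Adj]
    (hW : (walk (G.adjMatrix ℤ)).det ≠ 0) (d : Fin (m + 2) → ℕ)
    (hd : IsSNF (walk (G.adjMatrix ℤ)) d) :
    ∃ b : ℕ, 0 < b ∧ b ^ 2 ∣ d (Fin.last (m+1)) * d (Fin.last m).castSucc ∧
      ∀ Q ∈ QQ G, level Q ∣ b := by
  have hpos : 0 < d (Fin.last (m+1)) * d (Fin.last m).castSucc :=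
    Nat.mul_pos (hd.1 _) (hd.1 _)
  obtain ⟨a, b, ha, hb, hab, hsf⟩ := Nat.sq_mul_squarefree_of_pos hpos
  refine ⟨b, hb, ⟨a, hab.symm⟩, ?_⟩
  rintro Q ⟨hQ, hQ1, hQA⟩
  apply level_dvd _ hb
  intro i j
  have hB : Qᵀ * cq (G.adjMatrix ℤ) * Q =
      cq (Matrix.of fun i j => if (Qᵀ * G.adjMatrix ℚ * Q) i j = 0 then (0 : ℤ) else 1) := by
    rw [cq_adj]
    ext i j
    simp only [cq, Matrix.map_apply, Matrix.of_apply]
    rcases hQA i j with h | h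
    · rw [h]; simp
    · rw [h]; simp
  obtain ⟨κ, hκ, hκ2⟩ := col_level (SimpleGraph.isSymm_adjMatrix G) hW hd hQ hQ1 hB j
  rw [← hab] at hκ2
  obtain ⟨c, hc⟩ := sq_dvd_root hb hsf hκ2
  obtain ⟨z, hz⟩ := hκ i
  refine ⟨c * z, ?_⟩
  rw [hc]
  push_cast
  rw [← hz]
  simp only [Pi.smul_apply, smul_eq_mul]
  ring

/-- **Answer to Q1 (positive), for every prime.** Let `G` be a controllable graph on `n ≥ 2`
vertices and let `d 0 ∣ d 1 ∣ ⋯ ∣ d (n-1)` be the invariant factors of its walk matrix. Then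
`L(G)` (which is the least common multiple of the levels) satisfies
`L(G)² ∣ d_n d_{n-1}`, and hence `v_p(L(G)) ≤ (v_p(d_n) + v_p(d_{n-1})) / 2` for every prime. -/
theorem result {n : ℕ} (hn : 2 ≤ n) (G : SimpleGraph (Fin n)) [DecidableRel G.Adj]
    (hW : (walk (G.adjMatrix ℤ)).det ≠ 0) (d : Fin n → ℕ)
    (hd : IsSNF (walk (G.adjMatrix ℤ)) d) :
    0 < bigL G ∧ (∀ Q ∈ QQ G, level Q ∣ bigL G) ∧
    (∀ m : ℕ, (∀ Q ∈ QQ G, level Q ∣ m) → bigL G ∣ m) ∧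
    bigL G ^ 2 ∣ d ⟨n - 1, by omega⟩ * d ⟨n - 2, by omega⟩ ∧
    ∀ p : ℕ, p.Prime →
      2 * padicValNat p (bigL G) ≤
        padicValNat p (d ⟨n - 1, by omega⟩) + padicValNat p (d ⟨n - 2, by omega⟩) := by
  obtain ⟨m, rfl⟩ : ∃ m, n = m + 2 := ⟨n - 2, by omega⟩
  obtain ⟨b, hb, hb2, hbQ⟩ := main G hW d hd
  have hmem : bigL G ∈ {m : ℕ | 0 < m ∧ ∀ Q ∈ QQ G, level Q ∣ m} := Nat.sInf_mem ⟨b, hb, hbQ⟩
  have huniv : ∀ m : ℕ, (∀ Q ∈ QQ G, level Q ∣ m) → bigL G ∣ m := by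
    intro m hm
    have h1 : Nat.gcd (bigL G) m ∈ {m : ℕ | 0 < m ∧ ∀ Q ∈ QQ G, level Q ∣ m} :=
      ⟨Nat.gcd_pos_of_pos_left _ hmem.1, fun Q hQ => Nat.dvd_gcd (hmem.2 Q hQ) (hm Q hQ)⟩
    have h2 : bigL G ≤ Nat.gcd (bigL G) m := Nat.sInf_le h1
    exact Nat.gcd_eq_left_iff_dvd.mp (le_antisymm (Nat.gcd_le_left _ hmem.1) h2)
  have hsq : bigL G ^ 2 ∣ d ⟨m + 2 - 1, by omega⟩ * d ⟨m + 2 - 2, by omega⟩ :=
    (pow_dvd_pow_of_dvd (huniv b hbQ) 2).trans hb2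
  refine ⟨hmem.1, hmem.2, huniv, hsq, ?_⟩
  intro p hp
  have : Fact p.Prime := ⟨hp⟩
  have hd1 : d ⟨m + 2 - 1, by omega⟩ ≠ 0 := (hd.1 _).ne'
  have hd2 : d ⟨m + 2 - 2, by omega⟩ ≠ 0 := (hd.1 _).ne'
  have h1 : padicValNat p (bigL G ^ 2) = 2 * padicValNat p (bigL G) :=
    padicValNat.pow (bigL G) 2
  rw [← h1, ← padicValNat.mul hd1 hd2]
  exact (padicValNat_dvd_iff_le (Nat.mul_ne_zero hd1 hd2)).mp
    (pow_padicValNat_dvd.trans hsq)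

end Pool.Agent.Results.MP_e39433_co.LevelBound
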